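import Mathlib

/-! Tauberian lemma, first part: dyadic layers. -/

set_option autoImplicit false

open Filter Topology Set MeasureTheory

namespace Pool.Agent.L5helper64.PV

/-- left end -/
noncomputable def lo (m : ℕ) : ℝ := (1 / 2 : ℝ) ^ m
/-- right end -/
noncomputable def hi (m : ℕ) : ℝ := (2 : ℝ) ^ m

lemma lo_pos (m : ℕ) : 0 < lo m := by unfold lo; positivity
lemma hi_pos (m : ℕ) : 0 < hi m := by unfold hi; positivity
lemma lo_succ (m : ℕ) : lo (m + 1) = lo m / 2 := by unfold lo; rw [pow_succ]; ring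
lemma hi_succ (m : ℕ) : hi (m + 1) = 2 * hi m := by unfold hi; rw [pow_succ]; ring
lemma lo_le_one (m : ℕ) : lo m ≤ 1 := by
  unfold lo; exact pow_le_one₀ (by norm_num) (by norm_num)
lemma one_le_hi (m : ℕ) : 1 ≤ hi m := by
  unfold hi; exact one_le_pow₀ (by norm_num)
lemma lo_le_hi (m : ℕ) : lo m ≤ hi m := (lo_le_one m).trans (one_le_hi m)
lemma lo_mul_hi (m : ℕ) : lo m * hi m = 1 := by
  unfold lo hi; rw [← mul_pow]; norm_num
lemma lo_anti {m n : ℕ} (h : m ≤ n) : lo n ≤ lo m := by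
  unfold lo; exact pow_le_pow_of_le_one (by norm_num) (by norm_num) h
lemma hi_mono {m n : ℕ} (h : m ≤ n) : hi m ≤ hi n := by
  unfold hi; exact pow_le_pow_right₀ (by norm_num) h
lemma lo_tendsto : Tendsto lo atTop (𝓝 0) := by
  unfold lo
  exact tendsto_pow_atTop_nhds_zero_of_lt_one (by norm_num) (by norm_num)

lemma ii_of {w : ℝ → ℝ} (hw : ContinuousOn w (Ioi 0)) {a b : ℝ} (ha : 0 < a) (hb : 0 < b) :
    IntervalIntegrable w volume a b := by
  apply ContinuousOn.intervalIntegrable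
  apply hw.mono
  intro x hx
  exact lt_of_lt_of_le (lt_min ha hb) hx.1

/-- the masses of the layers -/
def Good (ν : ℝ → ℝ) (C : ℝ) (n : ℕ) : Prop :=
  ∀ j < n, (∫ y in lo (j + 1)..lo j, ν y) ≤ C * lo (j + 1) ∧
    (∫ y in hi j..hi (j + 1), ν y) ≤ C * hi j

lemma layer {ν w : ℝ → ℝ} (hν : ContinuousOn ν (Ioi 0)) (hν0 : ∀ y, 0 ≤ ν y)
    (hw : ContinuousOn w (Ioi 0)) {a b K : ℝ} (ha : 0 < a) (hab : a ≤ b)
    (hK : ∀ y ∈ Icc a b, w y ≤ K) :
    ∫ y in a..b, w y * ν y ≤ K * ∫ y in a..b, ν y := by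
  rw [← intervalIntegral.integral_const_mul]
  apply intervalIntegral.integral_mono_on hab
  · exact ii_of (hw.mul hν) ha (by linarith)
  · exact ii_of (continuousOn_const.mul hν) ha (by linarith)
  · intro y hy
    exact mul_le_mul_of_nonneg_right (hK y hy) (hν0 y)

lemma det {ν w : ℝ → ℝ} {C A B : ℝ} {n : ℕ} (hν : ContinuousOn ν (Ioi 0)) (hν0 : ∀ y, 0 ≤ ν y)
    (hw : ContinuousOn w (Ioi 0)) (hA : ∀ y, 0 < y → w y ≤ A) (hB : ∀ y, 0 < y → w y ≤ B / y ^ 2)
    (hA0 : 0 ≤ A) (hB0 : 0 ≤ B) (hG : Good ν C n) : ∀ m ≤ n, 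
    ∫ y in lo n..hi n, w y * ν y ≤ (∫ y in lo m..hi m, w y * ν y) +
      C * (A + 2 * B) * (lo m - lo n) := by
  intro m hm
  have key : ∀ k : ℕ, m + k ≤ n → ∫ y in lo (m + k)..hi (m + k), w y * ν y ≤
      (∫ y in lo m..hi m, w y * ν y) + C * (A + 2 * B) * (lo m - lo (m + k)) := by
    intro k
    induction k with
    | zero => intro _; simp
    | succ k ih =>
      intro hk
      have ih' := ih (by omega)
      obtain ⟨h1, h2⟩ := hG (m + k) (by omega)
      set j := m + k with hj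
      have e0 : m + (k + 1) = j + 1 := by omega
      rw [e0]
      have p1 := lo_pos j
      have p2 := lo_pos (j + 1)
      have p3 := hi_pos j
      have p4 := hi_pos (j + 1)
      have q1 : lo (j + 1) ≤ lo j := lo_anti (Nat.le_succ j)
      have q2 : hi j ≤ hi (j + 1) := hi_mono (Nat.le_succ j)
      have hwν : ContinuousOn (fun y => w y * ν y) (Ioi 0) := hw.mul hν
      have s1 : ∫ y in lo (j + 1)..hi (j + 1), w y * ν y =
          (∫ y in lo (j + 1)..lo j, w y * ν y) + (∫ y in lo j..hi j, w y * ν y) +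
            ∫ y in hi j..hi (j + 1), w y * ν y := by
        rw [intervalIntegral.integral_add_adjacent_intervals (ii_of hwν p2 p1) (ii_of hwν p1 p3),
          intervalIntegral.integral_add_adjacent_intervals (ii_of hwν p2 p3) (ii_of hwν p3 p4)]
      have t1 := layer hν hν0 hw p2 q1 (K := A) (fun y hy => hA y (lt_of_lt_of_le p2 hy.1))
      have t2 := layer hν hν0 hw p3 q2 (K := B / hi j ^ 2) (fun y hy => by
        have hy0 : 0 < y := lt_of_lt_of_le p3 hy.1
        refine (hB y hy0).trans ?_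
        apply div_le_div_of_nonneg_left hB0 (by positivity)
        exact pow_le_pow_left₀ p3.le hy.1 2)
      have t3 : A * ∫ y in lo (j + 1)..lo j, ν y ≤ A * (C * lo (j + 1)) :=
        mul_le_mul_of_nonneg_left h1 hA0
      have t4 : B / hi j ^ 2 * ∫ y in hi j..hi (j + 1), ν y ≤ B / hi j ^ 2 * (C * hi j) :=
        mul_le_mul_of_nonneg_left h2 (by positivity)
      have t5 : B / hi j ^ 2 * (C * hi j) = B * C * lo j := by
        have := lo_mul_hi j
        have h5 : lo j = 1 / hi j := by field_simp; linarith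
        rw [h5]
        field_simp
      have t6 := lo_succ j
      have t7 : C * (A + 2 * B) * (lo m - lo (j + 1)) =
          C * (A + 2 * B) * (lo m - lo j) + A * (C * lo (j + 1)) + B * C * lo j := by
        rw [t6]; ring
      rw [s1, t7]
      linarith
  obtain ⟨k, rfl⟩ := Nat.exists_eq_add_of_le hm
  exact key k le_rfl

lemma good_event {ν : ℝ → ℝ → ℝ} {C : ℝ}
    (A0 : ∀ V : ℝ, 0 < V → ∀ᶠ T in atTop, ∫ y in V..(2 * V), ν T y ≤ C * V) (n : ℕ) :
    ∀ᶠ T in atTop, Good (ν T) C n := by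
  induction n with
  | zero => exact Eventually.of_forall fun T j hj => absurd hj (Nat.not_lt_zero j)
  | succ n ih =>
    filter_upwards [ih, A0 (lo (n + 1)) (lo_pos _), A0 (hi n) (hi_pos _)] with T h1 h2 h3 j hj
    rcases Nat.lt_succ_iff_lt_or_eq.1 hj with h | h
    · exact h1 j h
    · subst h
      constructor
      · have e : 2 * lo (j + 1) = lo j := by rw [lo_succ]; ring
        rwa [e] at h2
      · rwa [← hi_succ] at h3

lemma good_const {ρ : ℝ} (n : ℕ) : Good (fun _ => ρ) ρ n := by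
  intro j _
  constructor
  · rw [intervalIntegral.integral_const, smul_eq_mul, lo_succ]
    apply le_of_eq; ring
  · rw [intervalIntegral.integral_const, smul_eq_mul, hi_succ]
    apply le_of_eq; ring

end Pool.Agent.L5helper64.PV
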