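import Pool.Agent.L5helper64.PV.A
import Pool.Agent.L5helper10.TV.Num

/-! Tauberian lemma, second part: bounds for `H`. -/

set_option autoImplicit false

open Filter Topology Set MeasureTheory
open Pool.Agent.L5helper10.TV (hs hs_upper hs_lower)

namespace Pool.Agent.L5helper64.PV

/-- the kernel -/
noncomputable def q (x y : ℝ) : ℝ := (2 - 2 * Real.cos (x * y)) / y ^ 2

lemma q_nonneg (x y : ℝ) : 0 ≤ q x y := by
  unfold q
  have := Real.cos_le_one (x * y)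
  exact div_nonneg (by linarith) (sq_nonneg _)

lemma q_le_four (x y : ℝ) : q x y ≤ 4 / y ^ 2 := by
  unfold q
  apply div_le_div_of_nonneg_right _ (sq_nonneg _)
  linarith [Real.neg_one_le_cos (x * y)]

lemma q_le_sq (x y : ℝ) (hy : 0 < y) : q x y ≤ x ^ 2 := by
  unfold q
  rw [div_le_iff₀ (by positivity)]
  have := Real.one_sub_sq_div_two_le_cos (x := x * y)
  nlinarith

lemma q_cont (x : ℝ) : ContinuousOn (q x) (Ioi 0) := by
  unfold q
  apply ContinuousOn.div (by fun_prop) (by fun_prop)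
  intro y hy
  have : (0 : ℝ) < y := hy
  positivity

lemma q_zero (y : ℝ) : q 0 y = 0 := by unfold q; simp
lemma q_abs (x y : ℝ) : q |x| y = q x y := by
  unfold q
  rcases le_total 0 x with h | h
  · rw [abs_of_nonneg h]
  · rw [abs_of_nonpos h, neg_mul, Real.cos_neg]

lemma S_eq (m : ℕ) {x : ℝ} (hx : 0 < x) :
    ∫ y in lo m..hi m, q x y = x * ∫ t in (x * lo m)..(x * hi m), hs t := by
  have h := intervalIntegral.integral_comp_mul_left (f := hs) (a := lo m) (b := hi m) hx.ne'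
  have e : ∀ y : ℝ, q x y = x ^ 2 * hs (x * y) := by
    intro y
    unfold q hs
    rcases eq_or_ne y 0 with h0 | h0
    · subst h0; simp
    · field_simp
  simp_rw [e]
  rw [intervalIntegral.integral_const_mul, h, smul_eq_mul]
  field_simp

lemma S_up (m : ℕ) {x : ℝ} (hx : 0 < x) : ∫ y in lo m..hi m, q x y ≤ x * Real.pi := by
  rw [S_eq m hx]
  apply mul_le_mul_of_nonneg_left _ hx.le
  exact hs_upper _ _ (mul_pos hx (lo_pos m)) (mul_le_mul_of_nonneg_left (lo_le_hi m) hx.le)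

lemma S_low (m : ℕ) {x : ℝ} (hx : 0 < x) :
    x * Real.pi - (x ^ 2 + 4) * lo m ≤ ∫ y in lo m..hi m, q x y := by
  rw [S_eq m hx]
  have h := hs_lower _ _ (mul_pos hx (lo_pos m)) (mul_le_mul_of_nonneg_left (lo_le_hi m) hx.le)
  have h2 := mul_le_mul_of_nonneg_left h hx.le
  refine le_trans (le_of_eq ?_) h2
  have h3 : lo m = 1 / hi m := by
    have := lo_mul_hi m
    have := hi_pos m
    field_simp
    linarith
  have := hi_pos m
  rw [h3]
  field_simp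
  ring

/-- the deviation -/
noncomputable def H (m : ℕ) (ν : ℝ → ℝ) (ρ x : ℝ) : ℝ := ∫ y in lo m..hi m, q x y * (ν y - ρ)

lemma H_eq (m : ℕ) {ν : ℝ → ℝ} (hν : Continuous ν) (ρ x : ℝ) :
    H m ν ρ x = (∫ y in lo m..hi m, q x y * ν y) - ρ * ∫ y in lo m..hi m, q x y := by
  unfold H
  rw [← intervalIntegral.integral_const_mul, ← intervalIntegral.integral_sub]
  · congr 1; funext y; ring
  · exact ii_of ((q_cont x).mul hν.continuousOn) (lo_pos m) (hi_pos m)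
  · exact ii_of (continuousOn_const.mul (q_cont x)) (lo_pos m) (hi_pos m)

lemma qν_le {ν : ℝ → ℝ} {C : ℝ} {m : ℕ} (hC : 0 ≤ C) (hν : Continuous ν) (hν0 : ∀ y, 0 ≤ ν y)
    (hG : Good ν C m) (x : ℝ) : ∫ y in lo m..hi m, q x y * ν y ≤ C * (x ^ 2 + 8) := by
  have h := det hν.continuousOn hν0 (q_cont x) (fun y hy => q_le_sq x y hy)
    (fun y _ => q_le_four x y) (sq_nonneg x) (by norm_num) hG 0 (Nat.zero_le m)
  have e : ∫ y in lo 0..hi 0, q x y * ν y = 0 := by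
    have : lo 0 = hi 0 := by unfold lo hi; simp
    rw [this, intervalIntegral.integral_same]
  rw [e] at h
  have h1 : lo 0 = 1 := by unfold lo; simp
  rw [h1] at h
  have h2 := lo_pos m
  have h3 : 0 ≤ C * (x ^ 2 + 8) := by positivity
  nlinarith

lemma H_dom {ν : ℝ → ℝ} {C ρ : ℝ} {m : ℕ} (hC : 0 ≤ C) (hρ : 0 ≤ ρ) (hν : Continuous ν)
    (hν0 : ∀ y, 0 ≤ ν y) (hG : Good ν C m) (x : ℝ) :
    |H m ν ρ x| ≤ (C + ρ) * (x ^ 2 + 8) := by
  have h1 := qν_le hC hν hν0 hG x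
  have h2 := qν_le hρ (continuous_const (y := ρ)) (fun _ => hρ) (good_const m) x
  have h3 : 0 ≤ ∫ y in lo m..hi m, q x y * ν y :=
    intervalIntegral.integral_nonneg (lo_le_hi m) fun y _ => mul_nonneg (q_nonneg x y) (hν0 y)
  have h4 : 0 ≤ ∫ y in lo m..hi m, q x y * ρ :=
    intervalIntegral.integral_nonneg (lo_le_hi m) fun y _ => mul_nonneg (q_nonneg x y) hρ
  have h5 : ∫ y in lo m..hi m, q x y * ρ = ρ * ∫ y in lo m..hi m, q x y := by
    rw [← intervalIntegral.integral_const_mul]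
    congr 1; funext y; ring
  rw [H_eq m hν, ← h5, abs_le]
  have h6 : 0 ≤ x ^ 2 + 8 := by positivity
  constructor
  · nlinarith
  · nlinarith

lemma H_ev_pos {ν : ℝ → ℝ → ℝ} {ρ C0 : ℝ} (hρ : 0 ≤ ρ) (hC0 : 0 ≤ C0)
    (hc : ∀ T, Continuous (ν T)) (h0 : ∀ T y, 0 ≤ ν T y)
    (A0 : ∀ V : ℝ, 0 < V → ∀ᶠ T in atTop, ∫ y in V..(2 * V), ν T y ≤ C0 * V)
    (Aup : ∀ X : ℝ, 0 < X → ∀ y0 y1 : ℝ, 0 < y0 → y0 ≤ y1 → ∀ ε : ℝ, 0 < ε → ∀ᶠ T in atTop,
      ∫ y in y0..y1, (2 - 2 * Real.cos (X * y)) / y ^ 2 * ν T y ≤ X * (Real.pi * ρ + ε))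
    (Alow : ∀ ε : ℝ, 0 < ε → ∃ a b : ℝ, 0 < a ∧ a ≤ b ∧ ∀ X : ℝ, 0 < X → ∀ᶠ T in atTop,
      X * (Real.pi * ρ - ε) ≤
        ∫ y in (a / X)..(b / X), (2 - 2 * Real.cos (X * y)) / y ^ 2 * ν T y)
    (m : ℕ) {x : ℝ} (hx : 0 < x) {ε : ℝ} (hε : 0 < ε) :
    ∀ᶠ T in atTop, |H m (ν T) ρ x| ≤ ε + (C0 + ρ) * (x ^ 2 + 8) * lo m := by
  have hεx : 0 < ε / x := div_pos hε hx
  obtain ⟨a, b, ha, hab, hlow⟩ := Alow (ε / x) hεx
  -- `n` with `[a/x, b/x]` inside the range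
  obtain ⟨n1, hn1⟩ : ∃ n1 : ℕ, ∀ n ≥ n1, lo n < a / x := by
    have := (lo_tendsto.eventually_lt_const (div_pos ha hx))
    exact Filter.eventually_atTop.1 this
  obtain ⟨n2, hn2⟩ : ∃ n2 : ℕ, b / x < hi n2 := by
    unfold hi
    exact pow_unbounded_of_one_lt _ (by norm_num)
  set n := max m (max n1 n2) with hn
  have hmn : m ≤ n := le_max_left _ _
  have hlo : lo n < a / x := hn1 n ((le_max_left _ _).trans (le_max_right _ _))
  have hhi : b / x < hi n := hn2.trans_le (hi_mono ((le_max_right _ _).trans (le_max_right _ _)))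
  have hax : 0 < a / x := div_pos ha hx
  have habx : a / x ≤ b / x := div_le_div_of_nonneg_right hab hx.le
  filter_upwards [Aup x hx (lo m) (hi m) (lo_pos m) (lo_le_hi m) (ε / x) hεx, hlow x hx,
    good_event A0 n] with T hup hl hG
  have eε : x * (ε / x) = ε := by field_simp
  have hup' : ∫ y in lo m..hi m, q x y * ν T y ≤ x * (Real.pi * ρ) + ε := by
    have : x * (Real.pi * ρ + ε / x) = x * (Real.pi * ρ) + ε := by rw [mul_add, eε]
    rw [this] at hup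
    exact hup
  have hl' : x * (Real.pi * ρ) - ε ≤ ∫ y in (a / x)..(b / x), q x y * ν T y := by
    have : x * (Real.pi * ρ - ε / x) = x * (Real.pi * ρ) - ε := by rw [mul_sub, eε]
    rw [this] at hl
    exact hl
  have hqν : ContinuousOn (fun y => q x y * ν T y) (Ioi 0) := (q_cont x).mul (hc T).continuousOn
  have hmono : ∫ y in (a / x)..(b / x), q x y * ν T y ≤ ∫ y in lo n..hi n, q x y * ν T y := by
    apply intervalIntegral.integral_mono_interval hlo.le habx hhi.le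
    · exact Eventually.of_forall fun y => mul_nonneg (q_nonneg x y) (h0 T y)
    · exact ii_of hqν (lo_pos n) (hi_pos n)
  have hdet := det (hc T).continuousOn (h0 T) (q_cont x) (fun y hy => q_le_sq x y hy)
    (fun y _ => q_le_four x y) (sq_nonneg x) (by norm_num) hG m hmn
  have s1 := S_up m hx
  have s2 := S_low m hx
  have l1 := lo_pos m
  have l2 := lo_pos n
  have hx8 : 0 ≤ x ^ 2 + 8 := by positivity
  rw [H_eq m (hc T), abs_le]
  constructor
  · have h1 : ρ * ∫ y in lo m..hi m, q x y ≤ ρ * (x * Real.pi) := mul_le_mul_of_nonneg_left s1 hρ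
    have h2 : C0 * (x ^ 2 + 2 * 4) * (lo m - lo n) ≤ C0 * (x ^ 2 + 8) * lo m := by
      have : 0 ≤ C0 * (x ^ 2 + 8) := by positivity
      nlinarith
    have h3 : 0 ≤ ρ * (x ^ 2 + 8) * lo m := by positivity
    nlinarith
  · have h1 : ρ * (x * Real.pi - (x ^ 2 + 4) * lo m) ≤ ρ * ∫ y in lo m..hi m, q x y :=
      mul_le_mul_of_nonneg_left s2 hρ
    have h3 : 0 ≤ C0 * (x ^ 2 + 8) * lo m := by positivity
    have h4 : 0 ≤ ρ * lo m := by positivity
    nlinarith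

lemma H_ev {ν : ℝ → ℝ → ℝ} {ρ C0 : ℝ} (hρ : 0 ≤ ρ) (hC0 : 0 ≤ C0)
    (hc : ∀ T, Continuous (ν T)) (h0 : ∀ T y, 0 ≤ ν T y)
    (A0 : ∀ V : ℝ, 0 < V → ∀ᶠ T in atTop, ∫ y in V..(2 * V), ν T y ≤ C0 * V)
    (Aup : ∀ X : ℝ, 0 < X → ∀ y0 y1 : ℝ, 0 < y0 → y0 ≤ y1 → ∀ ε : ℝ, 0 < ε → ∀ᶠ T in atTop,
      ∫ y in y0..y1, (2 - 2 * Real.cos (X * y)) / y ^ 2 * ν T y ≤ X * (Real.pi * ρ + ε))
    (Alow : ∀ ε : ℝ, 0 < ε → ∃ a b : ℝ, 0 < a ∧ a ≤ b ∧ ∀ X : ℝ, 0 < X → ∀ᶠ T in atTop,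
      X * (Real.pi * ρ - ε) ≤
        ∫ y in (a / X)..(b / X), (2 - 2 * Real.cos (X * y)) / y ^ 2 * ν T y)
    (m : ℕ) (x : ℝ) {ε : ℝ} (hε : 0 < ε) :
    ∀ᶠ T in atTop, |H m (ν T) ρ x| ≤ ε + (C0 + ρ) * (x ^ 2 + 8) * lo m := by
  rcases eq_or_ne x 0 with rfl | hx
  · refine Eventually.of_forall fun T => ?_
    have : H m (ν T) ρ 0 = 0 := by
      unfold H
      simp [q_zero]
    rw [this, abs_zero]
    have := lo_pos m
    positivity
  · have h := H_ev_pos hρ hC0 hc h0 A0 Aup Alow m (abs_pos.2 hx) hε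
    filter_upwards [h] with T hT
    have e : H m (ν T) ρ |x| = H m (ν T) ρ x := by
      unfold H
      simp_rw [q_abs]
    rwa [e, sq_abs] at hT

end Pool.Agent.L5helper64.PV
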