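import Mathlib

/-! Gaussian averages of the cosine. -/

set_option autoImplicit false

open Filter Topology Set MeasureTheory ProbabilityTheory

namespace Pool.Agent.L5helper64.PV

/-- the Gaussian measure with variance `2n` -/
noncomputable def γ (n : ℕ) : Measure ℝ := gaussianReal 0 (2 * n : NNReal)

instance (n : ℕ) : IsProbabilityMeasure (γ n) := by unfold γ; infer_instance

lemma cos_int (n : ℕ) (y : ℝ) : ∫ x, Real.cos (x * y) ∂(γ n) = Real.exp (-(n * y ^ 2)) := by
  have h := charFun_gaussianReal (μ := 0) (v := (2 * n : NNReal)) y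
  rw [charFun_apply_real] at h
  have h1 : ∫ x, (Complex.exp (y * x * Complex.I)).re ∂(γ n) =
      (∫ x, Complex.exp (y * x * Complex.I) ∂(γ n)).re := by
    have hi : Integrable (fun x : ℝ => Complex.exp (y * x * Complex.I)) (γ n) := by
      apply Integrable.mono' (integrable_const (1 : ℝ))
      · exact (by fun_prop : Continuous fun x : ℝ => Complex.exp (y * x * Complex.I)).aestronglyMeasurable
      · refine Eventually.of_forall fun x => ?_
        rw [← Complex.ofReal_mul, Complex.norm_exp_ofReal_mul_I]
    exact integral_re hi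
  have h2 : ∀ x : ℝ, (Complex.exp (y * x * Complex.I)).re = Real.cos (x * y) := by
    intro x
    rw [← Complex.ofReal_mul, Complex.exp_ofReal_mul_I_re, mul_comm]
  simp_rw [h2] at h1
  rw [h1]
  unfold γ
  rw [h]
  have h3 : ((y : ℂ) * ((0 : ℝ) : ℂ) * Complex.I - ((2 * n : NNReal) : ℝ) * (y : ℂ) ^ 2 / 2) =
      ((-(n * y ^ 2) : ℝ) : ℂ) := by
    push_cast
    ring
  rw [h3, Complex.exp_ofReal_re]

lemma sq_integrable (n : ℕ) : Integrable (fun x : ℝ => x ^ 2 + 8) (γ n) := by
  have h : MemLp id 2 (gaussianReal 0 (2 * n : NNReal)) := memLp_id_gaussianReal 2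
  have h1 := h.integrable_sq
  exact Integrable.add h1 (integrable_const _)

end Pool.Agent.L5helper64.PV
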