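import Pool.Agent.L5helper64.PV.B
import Pool.Agent.L5helper64.PV.G

/-! Tauberian lemma, third part: Gaussian averages of `H`. -/

set_option autoImplicit false

open Filter Topology Set MeasureTheory

namespace Pool.Agent.L5helper64.PV

/-- the kernel after averaging -/
noncomputable def g (n : ℕ) (y : ℝ) : ℝ := (1 - Real.exp (-(n * y ^ 2))) / y ^ 2

lemma avg (n m : ℕ) {ν : ℝ → ℝ} (hν : Continuous ν) (ρ : ℝ) :
    Integrable (H m ν ρ) (γ n) ∧
    ∫ x, H m ν ρ x ∂(γ n) = 2 * ∫ y in lo m..hi m, g n y * (ν y - ρ) := by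
  have hg : Integrable (fun y : ℝ => 4 / y ^ 2 * |ν y - ρ|) (volume.restrict (Ioc (lo m) (hi m))) := by
    have h1 : ContinuousOn (fun y : ℝ => 4 / y ^ 2 * |ν y - ρ|) (Icc (lo m) (hi m)) := by
      apply ContinuousOn.mul
      · apply ContinuousOn.div continuousOn_const (by fun_prop)
        intro y hy
        have := lt_of_lt_of_le (lo_pos m) hy.1
        positivity
      · exact (hν.sub continuous_const).abs.continuousOn
    exact (h1.integrableOn_Icc.mono_set Ioc_subset_Icc_self)
  have hm : Measurable (fun z : ℝ × ℝ => q z.1 z.2 * (ν z.2 - ρ)) := by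
    have h1 := hν.measurable
    unfold q
    fun_prop
  have hI : Integrable (Function.uncurry fun x y => q x y * (ν y - ρ))
      ((γ n).prod (volume.restrict (Ioc (lo m) (hi m)))) := by
    apply Integrable.mono' (hg.comp_snd (γ n)) hm.aestronglyMeasurable
    refine Eventually.of_forall fun z => ?_
    show ‖q z.1 z.2 * (ν z.2 - ρ)‖ ≤ 4 / z.2 ^ 2 * |ν z.2 - ρ|
    rw [norm_mul, Real.norm_eq_abs, Real.norm_eq_abs, abs_of_nonneg (q_nonneg _ _)]
    exact mul_le_mul_of_nonneg_right (q_le_four _ _) (abs_nonneg _)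
  have e : ∀ x, H m ν ρ x = ∫ y in Ioc (lo m) (hi m), q x y * (ν y - ρ) := by
    intro x
    unfold H
    rw [intervalIntegral.integral_of_le (lo_le_hi m)]
  constructor
  · have h1 := hI.integral_prod_left
    refine h1.congr (Eventually.of_forall fun x => ?_)
    exact (e x).symm
  · simp_rw [e]
    rw [integral_integral_swap hI, ← intervalIntegral.integral_const_mul,
      intervalIntegral.integral_of_le (lo_le_hi m)]
    congr 1
    funext y
    rw [integral_mul_const]
    have h2 : ∫ x, q x y ∂(γ n) = 2 * g n y := by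
      unfold q g
      have hcos : Integrable (fun x : ℝ => 2 * Real.cos (x * y)) (γ n) := by
        apply Integrable.const_mul
        apply Integrable.mono' (integrable_const (1 : ℝ))
        · exact (by fun_prop : Continuous fun x : ℝ => Real.cos (x * y)).aestronglyMeasurable
        · exact Eventually.of_forall fun x => by
            rw [Real.norm_eq_abs]; exact Real.abs_cos_le_one _
      rw [integral_div, integral_sub (integrable_const _) hcos, integral_const_mul, cos_int,
        integral_const]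
      simp
      ring
    rw [h2]
    ring

lemma gfun {ν : ℝ → ℝ → ℝ} {ρ C0 : ℝ} (hρ : 0 ≤ ρ) (hC0 : 0 ≤ C0)
    (hc : ∀ T, Continuous (ν T)) (h0 : ∀ T y, 0 ≤ ν T y)
    (A0 : ∀ V : ℝ, 0 < V → ∀ᶠ T in atTop, ∫ y in V..(2 * V), ν T y ≤ C0 * V)
    (m : ℕ)
    (hH : ∀ x : ℝ, ∀ ε : ℝ, 0 < ε →
      ∀ᶠ T in atTop, |H m (ν T) ρ x| ≤ ε + (C0 + ρ) * (x ^ 2 + 8) * lo m)
    (n : ℕ) {ε : ℝ} (hε : 0 < ε) :
    ∀ᶠ T in atTop, |∫ y in lo m..hi m, g n y * (ν T y - ρ)| ≤
      ε + (C0 + ρ) * (∫ x, (x ^ 2 + 8) ∂(γ n)) * lo m := by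
  have l1 := lo_pos m
  have l2 := lo_le_one m
  have hC1 : 0 ≤ C0 + ρ := by linarith
  set G : ℝ → ℝ → ℝ := fun T x => max (|H m (ν T) ρ x| - (C0 + ρ) * (x ^ 2 + 8) * lo m) 0 with hG
  have hGm : ∀ T, Integrable (G T) (γ n) := by
    intro T
    have h1 := (avg n m (hc T) ρ).1
    have h2 := ((sq_integrable n).const_mul (C0 + ρ)).mul_const (lo m)
    exact (h1.abs.sub h2).sup (integrable_const 0)
  have hlim : Tendsto (fun T => ∫ x, G T x ∂(γ n)) atTop (𝓝 (∫ _, (0 : ℝ) ∂(γ n))) := by
    apply tendsto_integral_filter_of_dominated_convergence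
      (fun x => (C0 + ρ) * (x ^ 2 + 8))
    · exact Eventually.of_forall fun T => (hGm T).aestronglyMeasurable
    · filter_upwards [good_event A0 m] with T hT
      refine Eventually.of_forall fun x => ?_
      have h1 := H_dom hC0 hρ (hc T) (h0 T) hT x
      have h2 : 0 ≤ (C0 + ρ) * (x ^ 2 + 8) := by positivity
      rw [Real.norm_eq_abs, abs_of_nonneg (le_max_right _ _)]
      apply max_le _ h2
      have : 0 ≤ (C0 + ρ) * (x ^ 2 + 8) * lo m := by positivity
      linarith
    · exact (sq_integrable n).const_mul _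
    · refine Eventually.of_forall fun x => ?_
      rw [Metric.tendsto_nhds]
      intro η hη
      filter_upwards [hH x (η / 2) (by positivity)] with T hT
      rw [dist_zero_right, Real.norm_eq_abs, abs_of_nonneg (le_max_right _ _)]
      apply max_lt _ hη
      linarith
  rw [integral_zero] at hlim
  filter_upwards [hlim.eventually_lt_const (show (0 : ℝ) < 2 * ε by positivity)] with T hT
  obtain ⟨i1, i2⟩ := avg n m (hc T) ρ
  have h1 : |∫ x, H m (ν T) ρ x ∂(γ n)| ≤ ∫ x, |H m (ν T) ρ x| ∂(γ n) := abs_integral_le_integral_abs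
  have h2 : ∫ x, |H m (ν T) ρ x| ∂(γ n) ≤
      ∫ x, (G T x + (C0 + ρ) * (x ^ 2 + 8) * lo m) ∂(γ n) := by
    apply integral_mono i1.abs ((hGm T).add (((sq_integrable n).const_mul (C0 + ρ)).mul_const (lo m)))
    intro x
    have := le_max_left (|H m (ν T) ρ x| - (C0 + ρ) * (x ^ 2 + 8) * lo m) 0
    simp only [hG, Pi.add_apply]
    linarith
  rw [integral_add (hGm T) (((sq_integrable n).const_mul (C0 + ρ)).mul_const (lo m)),
    integral_mul_const, integral_const_mul] at h2
  rw [i2, abs_mul, abs_of_pos (by norm_num : (0 : ℝ) < 2)] at h1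
  have h3 : 0 ≤ (C0 + ρ) * (∫ x, (x ^ 2 + 8) ∂(γ n)) * lo m := by
    have : 0 ≤ ∫ x, (x ^ 2 + 8) ∂(γ n) := integral_nonneg fun x => by positivity
    positivity
  linarith

end Pool.Agent.L5helper64.PV
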