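import Pool.Agent.L5helper64.PV.C

/-! Tauberian lemma, last part: approximation. -/

set_option autoImplicit false

open Filter Topology Set MeasureTheory

namespace Pool.Agent.L5helper64.PV

/-- the deviation is small for the test function `φ` -/
def Pg (ν : ℝ → ℝ → ℝ) (ρ : ℝ) (φ : ℝ → ℝ) : Prop :=
  ContinuousOn φ (Ioi 0) ∧ ∃ C : ℝ, 0 ≤ C ∧ ∀ m : ℕ, ∀ ε : ℝ, 0 < ε → ∀ᶠ T in atTop,
    |∫ y in lo m..hi m, φ y * (ν T y - ρ)| ≤ ε + C * lo m

lemma Pg.add {ν : ℝ → ℝ → ℝ} {ρ : ℝ} (hc : ∀ T, Continuous (ν T)) {φ ψ : ℝ → ℝ}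
    (h1 : Pg ν ρ φ) (h2 : Pg ν ρ ψ) : Pg ν ρ (fun y => φ y + ψ y) := by
  obtain ⟨c1, C1, hC1, h1⟩ := h1
  obtain ⟨c2, C2, hC2, h2⟩ := h2
  refine ⟨c1.add c2, C1 + C2, by linarith, fun m ε hε => ?_⟩
  filter_upwards [h1 m (ε / 2) (by positivity), h2 m (ε / 2) (by positivity)] with T a1 a2
  have hν : ContinuousOn (fun y => ν T y - ρ) (Ioi 0) := ((hc T).sub continuous_const).continuousOn
  have e : ∫ y in lo m..hi m, (φ y + ψ y) * (ν T y - ρ) =
      (∫ y in lo m..hi m, φ y * (ν T y - ρ)) + ∫ y in lo m..hi m, ψ y * (ν T y - ρ) := by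
    have i1 : IntervalIntegrable (fun y => φ y * (ν T y - ρ)) volume (lo m) (hi m) :=
      ii_of (c1.mul hν) (lo_pos m) (hi_pos m)
    have i2 : IntervalIntegrable (fun y => ψ y * (ν T y - ρ)) volume (lo m) (hi m) :=
      ii_of (c2.mul hν) (lo_pos m) (hi_pos m)
    rw [← intervalIntegral.integral_add i1 i2]
    congr 1; funext y; ring
  rw [e]
  refine (abs_add_le _ _).trans ?_
  linarith

lemma Pg.smul {ν : ℝ → ℝ → ℝ} {ρ : ℝ} {φ : ℝ → ℝ} (c : ℝ)
    (h1 : Pg ν ρ φ) : Pg ν ρ (fun y => c * φ y) := by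
  obtain ⟨c1, C1, hC1, h1⟩ := h1
  refine ⟨continuousOn_const.mul c1, |c| * C1, by positivity, fun m ε hε => ?_⟩
  have hc : 0 < |c| + 1 := by positivity
  filter_upwards [h1 m (ε / (|c| + 1)) (by positivity)] with T a1
  have e : ∫ y in lo m..hi m, c * φ y * (ν T y - ρ) =
      c * ∫ y in lo m..hi m, φ y * (ν T y - ρ) := by
    rw [← intervalIntegral.integral_const_mul]
    congr 1; funext y; ring
  rw [e, abs_mul]
  have h2 : |c| * |∫ y in lo m..hi m, φ y * (ν T y - ρ)| ≤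
      |c| * (ε / (|c| + 1) + C1 * lo m) := mul_le_mul_of_nonneg_left a1 (abs_nonneg c)
  have h3 : |c| * (ε / (|c| + 1)) ≤ ε := by
    rw [mul_div_assoc', div_le_iff₀ hc]
    nlinarith [abs_nonneg c]
  nlinarith

lemma g_cont (n : ℕ) : ContinuousOn (g n) (Ioi 0) := by
  unfold g
  apply ContinuousOn.div (by fun_prop) (by fun_prop)
  intro y hy
  have : (0 : ℝ) < y := hy
  positivity

lemma g_pow (n : ℕ) (y : ℝ) : g n y = (1 - Real.exp (-y ^ 2) ^ n) / y ^ 2 := by
  unfold g
  rw [← Real.exp_nat_mul]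
  congr 3
  ring

lemma Pg_poly {ν : ℝ → ℝ → ℝ} {ρ : ℝ} (hc : ∀ T, Continuous (ν T))
    (hg : ∀ n, Pg ν ρ (g n)) (r : Polynomial ℝ) :
    Pg ν ρ (fun y => g 1 y * r.eval (Real.exp (-y ^ 2))) := by
  induction r using Polynomial.induction_on' with
  | add p q hp hq =>
    have h := Pg.add hc hp hq
    convert h using 2 with y
    rw [Polynomial.eval_add]; ring
  | monomial j a =>
    have h := Pg.smul a (Pg.add hc (hg (j + 1)) (Pg.smul (-1) (hg j)))
    convert h using 2 with y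
    rw [Polynomial.eval_monomial, g_pow, g_pow, g_pow, pow_succ]
    ring

lemma g1_nonneg (y : ℝ) : 0 ≤ g 1 y := by
  rw [g_pow, pow_one]
  apply div_nonneg _ (sq_nonneg _)
  have : Real.exp (-y ^ 2) ≤ 1 := Real.exp_le_one_iff.2 (by nlinarith [sq_nonneg y])
  linarith

lemma g1_le_one {y : ℝ} (hy : 0 < y) : g 1 y ≤ 1 := by
  rw [g_pow, pow_one, div_le_one (by positivity)]
  have := Real.add_one_le_exp (-y ^ 2)
  linarith

lemma g1_le (y : ℝ) : g 1 y ≤ 1 / y ^ 2 := by
  rw [g_pow, pow_one]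
  apply div_le_div_of_nonneg_right _ (sq_nonneg _)
  have := Real.exp_pos (-y ^ 2)
  linarith

lemma g1_mass {ν : ℝ → ℝ} {C : ℝ} {m : ℕ} (hC : 0 ≤ C) (hν : Continuous ν) (hν0 : ∀ y, 0 ≤ ν y)
    (hG : Good ν C m) : ∫ y in lo m..hi m, g 1 y * ν y ≤ 3 * C := by
  have h := det hν.continuousOn hν0 (g_cont 1) (fun y hy => g1_le_one hy)
    (fun y _ => g1_le y) (by norm_num) (by norm_num) hG 0 (Nat.zero_le m)
  have e : ∫ y in lo 0..hi 0, g 1 y * ν y = 0 := by
    have : lo 0 = hi 0 := by unfold lo hi; simp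
    rw [this, intervalIntegral.integral_same]
  rw [e] at h
  have h1 : lo 0 = 1 := by unfold lo; simp
  rw [h1] at h
  have h2 := lo_pos m
  nlinarith

/-- convergence for a continuous test function with support in `[1/2, 3]` -/
lemma test_conv {ν : ℝ → ℝ → ℝ} {ρ C0 : ℝ} (hρ : 0 ≤ ρ) (hC0 : 0 ≤ C0)
    (hc : ∀ T, Continuous (ν T)) (h0 : ∀ T y, 0 ≤ ν T y)
    (A0 : ∀ V : ℝ, 0 < V → ∀ᶠ T in atTop, ∫ y in V..(2 * V), ν T y ≤ C0 * V)
    (hg : ∀ n, Pg ν ρ (g n)) (τ : ℝ → ℝ) (hτ : Continuous τ) (hτ1 : ∀ y ≤ 1 / 2, τ y = 0)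
    (hτ2 : ∀ y, 3 ≤ y → τ y = 0) (ε : ℝ) (hε : 0 < ε) :
    ∀ᶠ T in atTop, |∫ y in lo 2..hi 2, τ y * (ν T y - ρ)| ≤ ε := by
  -- the function `F`
  set f : ℝ → ℝ := fun z => (-Real.log z) * τ (Real.sqrt (-Real.log z)) / (1 - z) with hf
  set cl : ℝ → ℝ := fun z => max (Real.exp (-9)) (min z (Real.exp (-(1 / 4)))) with hcl
  have hfc : ContinuousOn f (Ioo 0 1) := by
    apply ContinuousOn.div
    · apply ContinuousOn.mul
      · exact (Real.continuousOn_log.mono fun z hz => hz.1.ne').neg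
      · apply hτ.comp_continuousOn
        apply Real.continuous_sqrt.comp_continuousOn
        exact (Real.continuousOn_log.mono fun z hz => hz.1.ne').neg
    · fun_prop
    · intro z hz
      have := hz.2
      linarith
  have hcl1 : ∀ z, cl z ∈ Ioo (0 : ℝ) 1 := by
    intro z
    constructor
    · exact lt_of_lt_of_le (Real.exp_pos _) (le_max_left _ _)
    · apply max_lt
      · rw [Real.exp_lt_one_iff]; norm_num
      · refine lt_of_le_of_lt (min_le_right _ _) ?_
        rw [Real.exp_lt_one_iff]; norm_num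
  have hFc : Continuous (fun z => f (cl z)) := by
    apply hfc.comp_continuous
    · rw [hcl]; fun_prop
    · exact hcl1
  have key : ∀ y : ℝ, 0 < y → g 1 y * f (cl (Real.exp (-y ^ 2))) = τ y := by
    intro y hy
    rcases le_or_gt y (1 / 2) with h | h
    · have e1 : cl (Real.exp (-y ^ 2)) = Real.exp (-(1 / 4)) := by
        have h1 : Real.exp (-(1 / 4)) ≤ Real.exp (-y ^ 2) := Real.exp_le_exp.2 (by nlinarith)
        simp only [hcl]
        rw [min_eq_right h1]
        apply max_eq_right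
        apply Real.exp_le_exp.2; norm_num
      have e2 : f (Real.exp (-(1 / 4))) = 0 := by
        simp only [hf]
        rw [Real.log_exp]
        have : Real.sqrt (- -(1 / 4 : ℝ)) = 1 / 2 := by
          rw [neg_neg, show (1 / 4 : ℝ) = (1 / 2) ^ 2 by norm_num, Real.sqrt_sq (by norm_num)]
        rw [this, hτ1 (1 / 2) le_rfl]
        simp
      rw [e1, e2, mul_zero, hτ1 y h]
    · rcases le_or_gt 3 y with h' | h'
      · have e1 : cl (Real.exp (-y ^ 2)) = Real.exp (-9) := by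
          have h1 : Real.exp (-y ^ 2) ≤ Real.exp (-9) := Real.exp_le_exp.2 (by nlinarith)
          simp only [hcl]
          apply max_eq_left
          exact (min_le_left _ _).trans h1
        have e2 : f (Real.exp (-9)) = 0 := by
          simp only [hf]
          rw [Real.log_exp]
          have : Real.sqrt (- -(9 : ℝ)) = 3 := by
            rw [neg_neg, show (9 : ℝ) = 3 ^ 2 by norm_num, Real.sqrt_sq (by norm_num)]
          rw [this, hτ2 3 le_rfl]
          simp
        rw [e1, e2, mul_zero, hτ2 y h']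
      · have e1 : cl (Real.exp (-y ^ 2)) = Real.exp (-y ^ 2) := by
          have h1 : Real.exp (-y ^ 2) ≤ Real.exp (-(1 / 4)) := Real.exp_le_exp.2 (by nlinarith)
          have h2 : Real.exp (-9) ≤ Real.exp (-y ^ 2) := Real.exp_le_exp.2 (by nlinarith)
          simp only [hcl]
          rw [min_eq_left h1, max_eq_right h2]
        have e3 : Real.exp (-y ^ 2) < 1 := by
          rw [Real.exp_lt_one_iff]; nlinarith
        rw [e1, g_pow, pow_one]
        simp only [hf]
        rw [Real.log_exp, neg_neg, Real.sqrt_sq hy.le]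
        have h4 : 1 - Real.exp (-y ^ 2) ≠ 0 := by linarith
        field_simp
  -- approximation
  set K := 3 * (C0 + ρ) + 1 with hK
  have hK0 : 0 < K := by positivity
  obtain ⟨r, hr⟩ := exists_polynomial_near_of_continuousOn 0 1 (fun z => f (cl z))
    hFc.continuousOn (ε / (3 * K)) (by positivity)
  obtain ⟨-, C, hC, hP⟩ := Pg_poly hc hg r
  obtain ⟨m, hm2, hm⟩ : ∃ m : ℕ, 2 ≤ m ∧ C * lo m ≤ ε / 3 := by
    have h1 : Tendsto (fun m => C * lo m) atTop (𝓝 (C * 0)) := lo_tendsto.const_mul C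
    rw [mul_zero] at h1
    obtain ⟨m, hm⟩ := ((h1.eventually_le_const (show (0 : ℝ) < ε / 3 by positivity)).and
      (eventually_ge_atTop 2)).exists
    exact ⟨m, hm.2, hm.1⟩
  filter_upwards [hP m (ε / 3) (by positivity), good_event A0 m] with T h1 hG
  have hν : ContinuousOn (fun y => ν T y - ρ) (Ioi 0) := ((hc T).sub continuous_const).continuousOn
  have hrc : ContinuousOn (fun y => g 1 y * r.eval (Real.exp (-y ^ 2))) (Ioi 0) := by
    apply (g_cont 1).mul
    exact (r.continuous.comp (by fun_prop)).continuousOn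
  -- `I_2` is enough
  have hI2 : ∫ y in lo 2..hi 2, τ y * (ν T y - ρ) = ∫ y in lo m..hi m, τ y * (ν T y - ρ) := by
    have hcτ : ContinuousOn (fun y => τ y * (ν T y - ρ)) (Ioi 0) := hτ.continuousOn.mul hν
    rw [← intervalIntegral.integral_add_adjacent_intervals (a := lo m) (b := lo 2) (c := hi m)
      (ii_of hcτ (lo_pos m) (lo_pos 2)) (ii_of hcτ (lo_pos 2) (hi_pos m)),
      ← intervalIntegral.integral_add_adjacent_intervals (a := lo 2) (b := hi 2) (c := hi m)
      (ii_of hcτ (lo_pos 2) (hi_pos 2)) (ii_of hcτ (hi_pos 2) (hi_pos m))]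
    have z1 : ∫ y in lo m..lo 2, τ y * (ν T y - ρ) = 0 := by
      have : ∫ y in lo m..lo 2, τ y * (ν T y - ρ) = ∫ y in lo m..lo 2, (0 : ℝ) := by
        apply intervalIntegral.integral_congr
        intro y hy
        rw [uIcc_of_le (lo_anti hm2)] at hy
        have h3 : y ≤ 1 / 2 := hy.2.trans (by unfold lo; norm_num)
        simp [hτ1 y h3]
      rw [this, intervalIntegral.integral_zero]
    have z2 : ∫ y in hi 2..hi m, τ y * (ν T y - ρ) = 0 := by
      have : ∫ y in hi 2..hi m, τ y * (ν T y - ρ) = ∫ y in hi 2..hi m, (0 : ℝ) := by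
        apply intervalIntegral.integral_congr
        intro y hy
        rw [uIcc_of_le (hi_mono hm2)] at hy
        have h3 : 3 ≤ y := le_trans (by unfold hi; norm_num) hy.1
        simp [hτ2 y h3]
      rw [this, intervalIntegral.integral_zero]
    rw [z1, z2]
    ring
  rw [hI2]
  have hsplit : ∫ y in lo m..hi m, τ y * (ν T y - ρ) =
      (∫ y in lo m..hi m, g 1 y * r.eval (Real.exp (-y ^ 2)) * (ν T y - ρ)) +
        ∫ y in lo m..hi m, (τ y - g 1 y * r.eval (Real.exp (-y ^ 2))) * (ν T y - ρ) := by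
    have i1 : IntervalIntegrable (fun y => g 1 y * r.eval (Real.exp (-y ^ 2)) * (ν T y - ρ))
        volume (lo m) (hi m) := ii_of (hrc.mul hν) (lo_pos m) (hi_pos m)
    have i2 : IntervalIntegrable
        (fun y => (τ y - g 1 y * r.eval (Real.exp (-y ^ 2))) * (ν T y - ρ))
        volume (lo m) (hi m) := ii_of ((hτ.continuousOn.sub hrc).mul hν) (lo_pos m) (hi_pos m)
    rw [← intervalIntegral.integral_add i1 i2]
    congr 1; funext y; ring
  have hsmall : |∫ y in lo m..hi m, (τ y - g 1 y * r.eval (Real.exp (-y ^ 2))) * (ν T y - ρ)| ≤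
      ε / (3 * K) * (3 * (C0 + ρ)) := by
    have m1 := g1_mass hC0 (hc T) (h0 T) hG
    have m2 := g1_mass hρ (continuous_const (y := ρ)) (fun _ => hρ) (good_const m)
    have i1 : IntervalIntegrable (fun y => g 1 y * ν T y) volume (lo m) (hi m) :=
      ii_of ((g_cont 1).mul (hc T).continuousOn) (lo_pos m) (hi_pos m)
    have i2 : IntervalIntegrable (fun y => g 1 y * ρ) volume (lo m) (hi m) :=
      ii_of ((g_cont 1).mul continuousOn_const) (lo_pos m) (hi_pos m)
    have s1 : |∫ y in lo m..hi m, (τ y - g 1 y * r.eval (Real.exp (-y ^ 2))) * (ν T y - ρ)| ≤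
        ∫ y in lo m..hi m, ε / (3 * K) * (g 1 y * ν T y + g 1 y * ρ) := by
      refine (intervalIntegral.abs_integral_le_integral_abs (lo_le_hi m)).trans ?_
      apply intervalIntegral.integral_mono_on (lo_le_hi m)
      · exact (ii_of ((hτ.continuousOn.sub hrc).mul hν) (lo_pos m) (hi_pos m)).abs
      · exact (i1.add i2).const_mul _
      · intro y hy
        have hy0 : 0 < y := lt_of_lt_of_le (lo_pos m) hy.1
        have hz : Real.exp (-y ^ 2) ∈ Icc (0 : ℝ) 1 :=
          ⟨(Real.exp_pos _).le, Real.exp_le_one_iff.2 (by nlinarith [sq_nonneg y])⟩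
        have hz2 := hr _ hz
        rw [← key y hy0, ← mul_sub, abs_mul, abs_mul, abs_of_nonneg (g1_nonneg y)]
        have h5 : |f (cl (Real.exp (-y ^ 2))) - r.eval (Real.exp (-y ^ 2))| ≤ ε / (3 * K) := by
          rw [abs_sub_comm]; exact hz2.le
        have h6 : |ν T y - ρ| ≤ ν T y + ρ := by
          have := h0 T y
          rw [abs_le]; constructor <;> linarith
        have h7 : |f (cl (Real.exp (-y ^ 2))) - r.eval (Real.exp (-y ^ 2))| * |ν T y - ρ| ≤
            ε / (3 * K) * (ν T y + ρ) :=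
          mul_le_mul h5 h6 (abs_nonneg _) (by positivity)
        have h8 := mul_le_mul_of_nonneg_left h7 (g1_nonneg y)
        calc _ = g 1 y * (|f (cl (Real.exp (-y ^ 2))) - r.eval (Real.exp (-y ^ 2))| *
              |ν T y - ρ|) := by ring
          _ ≤ _ := h8
          _ = _ := by ring
    rw [intervalIntegral.integral_const_mul, intervalIntegral.integral_add i1 i2] at s1
    refine s1.trans ?_
    apply mul_le_mul_of_nonneg_left _ (by positivity)
    linarith
  have hK2 : ε / (3 * K) * (3 * (C0 + ρ)) ≤ ε / 3 := by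
    have : ε / (3 * K) * (3 * (C0 + ρ)) ≤ ε / (3 * K) * K := by
      apply mul_le_mul_of_nonneg_left _ (by positivity)
      linarith
    refine this.trans (le_of_eq ?_)
    field_simp
  rw [hsplit]
  refine (abs_add_le _ _).trans ?_
  linarith

/-- trapezoid -/
noncomputable def trap (a b δ y : ℝ) : ℝ := max 0 (min 1 (min ((y - a) / δ) ((b - y) / δ)))

lemma trap_cont (a b δ : ℝ) : Continuous (trap a b δ) := by unfold trap; fun_prop
lemma trap_nonneg (a b δ y : ℝ) : 0 ≤ trap a b δ y := le_max_left _ _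
lemma trap_le_one (a b δ y : ℝ) : trap a b δ y ≤ 1 := max_le (by norm_num) (min_le_left _ _)
lemma trap_left {a b δ y : ℝ} (hδ : 0 < δ) (h : y ≤ a) : trap a b δ y = 0 := by
  unfold trap
  apply max_eq_left
  refine (min_le_right _ _).trans ((min_le_left _ _).trans ?_)
  exact div_nonpos_of_nonpos_of_nonneg (by linarith) hδ.le
lemma trap_right {a b δ y : ℝ} (hδ : 0 < δ) (h : b ≤ y) : trap a b δ y = 0 := by
  unfold trap
  apply max_eq_left
  refine (min_le_right _ _).trans ((min_le_right _ _).trans ?_)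
  exact div_nonpos_of_nonpos_of_nonneg (by linarith) hδ.le
lemma trap_mid {a b δ y : ℝ} (hδ : 0 < δ) (h1 : a + δ ≤ y) (h2 : y ≤ b - δ) :
    trap a b δ y = 1 := by
  unfold trap
  have e1 : 1 ≤ (y - a) / δ := by rw [le_div_iff₀ hδ]; linarith
  have e2 : 1 ≤ (b - y) / δ := by rw [le_div_iff₀ hδ]; linarith
  rw [min_eq_left (le_min e1 e2)]
  norm_num

end Pool.Agent.L5helper64.PV

open Pool.Agent.L5helper64.PV in
theorem Pool.Agent.L5helper64.PV.tauber (ν : ℝ → ℝ → ℝ) (ρ C0 : ℝ) (hρ : 0 ≤ ρ) (hC0 : 0 ≤ C0)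
    (hc : ∀ T, Continuous (ν T)) (h0 : ∀ T y, 0 ≤ ν T y)
    (A0 : ∀ V : ℝ, 0 < V → ∀ᶠ T in atTop, ∫ y in V..(2 * V), ν T y ≤ C0 * V)
    (Aup : ∀ X : ℝ, 0 < X → ∀ y0 y1 : ℝ, 0 < y0 → y0 ≤ y1 → ∀ ε : ℝ, 0 < ε → ∀ᶠ T in atTop,
      ∫ y in y0..y1, (2 - 2 * Real.cos (X * y)) / y ^ 2 * ν T y ≤ X * (Real.pi * ρ + ε))
    (Alow : ∀ ε : ℝ, 0 < ε → ∃ a b : ℝ, 0 < a ∧ a ≤ b ∧ ∀ X : ℝ, 0 < X → ∀ᶠ T in atTop,
      X * (Real.pi * ρ - ε) ≤
        ∫ y in (a / X)..(b / X), (2 - 2 * Real.cos (X * y)) / y ^ 2 * ν T y) :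
    Tendsto (fun T => ∫ y in (1:ℝ)..2, ν T y) atTop (𝓝 ρ) := by
  have hg : ∀ n, Pg ν ρ (g n) := by
    intro n
    refine ⟨g_cont n, (C0 + ρ) * (∫ x, (x ^ 2 + 8) ∂(γ n)), ?_, fun m ε hε => ?_⟩
    · have : 0 ≤ ∫ x, (x ^ 2 + 8) ∂(γ n) := integral_nonneg fun x => by positivity
      positivity
    · exact gfun hρ hC0 hc h0 A0 m (fun x ε hε => H_ev hρ hC0 hc h0 A0 Aup Alow m x hε) n hε
  have hconv : ∀ a b δ : ℝ, 0 < δ → 1 / 2 ≤ a → b ≤ 3 → ∀ ε : ℝ, 0 < ε →
      ∀ᶠ T in atTop, |∫ y in lo 2..hi 2, trap a b δ y * (ν T y - ρ)| ≤ ε := by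
    intro a b δ hδ ha hb ε hε
    exact test_conv hρ hC0 hc h0 A0 hg (trap a b δ) (trap_cont a b δ)
      (fun y hy => trap_left hδ (hy.trans ha)) (fun y hy => trap_right hδ (hb.trans hy)) ε hε
  have e2 : lo 2 = 1 / 4 := by unfold lo; norm_num
  have e3 : hi 2 = 4 := by unfold hi; norm_num
  have hii : ∀ (φ : ℝ → ℝ), Continuous φ → ∀ a b : ℝ, IntervalIntegrable φ volume a b :=
    fun φ hφ a b => hφ.intervalIntegrable a b
  -- restriction of the integral to the support
  have hsupp : ∀ a b δ : ℝ, 0 < δ → 1 / 2 ≤ a → a ≤ b → b ≤ 3 → ∀ φ : ℝ → ℝ, Continuous φ →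
      ∫ y in lo 2..hi 2, trap a b δ y * φ y = ∫ y in a..b, trap a b δ y * φ y := by
    intro a b δ hδ ha hab hb φ hφ
    have hcτ : Continuous (fun y => trap a b δ y * φ y) := (trap_cont a b δ).mul hφ
    rw [← intervalIntegral.integral_add_adjacent_intervals (a := lo 2) (b := a) (c := hi 2)
      (hii _ hcτ _ _) (hii _ hcτ _ _),
      ← intervalIntegral.integral_add_adjacent_intervals (a := a) (b := b) (c := hi 2)
      (hii _ hcτ _ _) (hii _ hcτ _ _)]
    have z1 : ∫ y in lo 2..a, trap a b δ y * φ y = 0 := by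
      have : ∫ y in lo 2..a, trap a b δ y * φ y = ∫ y in lo 2..a, (0 : ℝ) := by
        apply intervalIntegral.integral_congr
        intro y hy
        rw [uIcc_of_le (by rw [e2]; linarith)] at hy
        simp [trap_left hδ hy.2]
      rw [this, intervalIntegral.integral_zero]
    have z2 : ∫ y in b..hi 2, trap a b δ y * φ y = 0 := by
      have : ∫ y in b..hi 2, trap a b δ y * φ y = ∫ y in b..hi 2, (0 : ℝ) := by
        apply intervalIntegral.integral_congr
        intro y hy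
        rw [uIcc_of_le (by rw [e3]; linarith)] at hy
        simp [trap_right hδ hy.1]
      rw [this, intervalIntegral.integral_zero]
    rw [z1, z2]
    ring
  have hdiff : ∀ a b δ : ℝ, ∀ T, ∫ y in lo 2..hi 2, trap a b δ y * (ν T y - ρ) =
      (∫ y in lo 2..hi 2, trap a b δ y * ν T y) - ρ * ∫ y in lo 2..hi 2, trap a b δ y * 1 := by
    intro a b δ T
    have i1 : IntervalIntegrable (fun y => trap a b δ y * ν T y) volume (lo 2) (hi 2) :=
      hii _ ((trap_cont a b δ).mul (hc T)) _ _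
    have i2 : IntervalIntegrable (fun y => ρ * (trap a b δ y * 1)) volume (lo 2) (hi 2) :=
      hii _ (continuous_const.mul ((trap_cont a b δ).mul continuous_const)) _ _
    rw [← intervalIntegral.integral_const_mul, ← intervalIntegral.integral_sub i1 i2]
    congr 1; funext y; ring
  rw [Metric.tendsto_nhds]
  intro ε hε
  -- the width
  obtain ⟨δ, hδ, hδ2, hδρ⟩ : ∃ δ : ℝ, 0 < δ ∧ δ ≤ 1 / 2 ∧ ρ * (2 * δ) ≤ ε / 3 := by
    refine ⟨min (1 / 2) (ε / (6 * (ρ + 1))), by positivity, min_le_left _ _, ?_⟩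
    have h1 : min (1 / 2) (ε / (6 * (ρ + 1))) ≤ ε / (6 * (ρ + 1)) := min_le_right _ _
    have h2 : ρ * (2 * min (1 / 2) (ε / (6 * (ρ + 1)))) ≤ (ρ + 1) * (2 * (ε / (6 * (ρ + 1)))) := by
      apply mul_le_mul (by linarith) (by linarith) (by positivity) (by positivity)
    refine h2.trans (le_of_eq ?_)
    field_simp
    norm_num
  filter_upwards [hconv (1 - δ) (2 + δ) δ hδ (by linarith) (by linarith) (ε / 3) (by positivity),
    hconv 1 2 δ hδ (by norm_num) (by norm_num) (ε / 3) (by positivity)] with T u1 u2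
  rw [hdiff] at u1 u2
  rw [hsupp (1 - δ) (2 + δ) δ hδ (by linarith) (by linarith) (by linarith) _ (hc T),
    hsupp (1 - δ) (2 + δ) δ hδ (by linarith) (by linarith) (by linarith) _ continuous_const] at u1
  rw [hsupp 1 2 δ hδ (by norm_num) (by norm_num) (by norm_num) _ (hc T),
    hsupp 1 2 δ hδ (by norm_num) (by norm_num) (by norm_num) _ continuous_const] at u2
  -- upper bound
  have v1 : ∫ y in (1 : ℝ)..2, ν T y ≤ ∫ y in (1 - δ)..(2 + δ), trap (1 - δ) (2 + δ) δ y * ν T y := by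
    have w1 : ∫ y in (1 : ℝ)..2, ν T y = ∫ y in (1 : ℝ)..2, trap (1 - δ) (2 + δ) δ y * ν T y := by
      apply intervalIntegral.integral_congr
      intro y hy
      rw [uIcc_of_le (by norm_num)] at hy
      simp only
      rw [trap_mid hδ (by linarith [hy.1]) (by linarith [hy.2]), one_mul]
    rw [w1]
    apply intervalIntegral.integral_mono_interval (by linarith) (by norm_num) (by linarith)
    · exact Eventually.of_forall fun y => mul_nonneg (trap_nonneg _ _ _ _) (h0 T y)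
    · exact hii _ ((trap_cont _ _ _).mul (hc T)) _ _
  have v2 : ∫ y in (1 - δ)..(2 + δ), trap (1 - δ) (2 + δ) δ y * 1 ≤ 1 + 2 * δ := by
    have : ∫ y in (1 - δ)..(2 + δ), trap (1 - δ) (2 + δ) δ y * 1 ≤
        ∫ y in (1 - δ)..(2 + δ), (1 : ℝ) := by
      apply intervalIntegral.integral_mono_on (by linarith)
        (hii _ ((trap_cont _ _ _).mul continuous_const) _ _) (hii _ continuous_const _ _)
      intro y _
      show trap (1 - δ) (2 + δ) δ y * 1 ≤ 1
      rw [mul_one]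
      exact trap_le_one _ _ _ _
    refine this.trans (le_of_eq ?_)
    rw [intervalIntegral.integral_const]
    simp only [smul_eq_mul, mul_one]
    ring
  -- lower bound
  have v3 : ∫ y in (1 : ℝ)..2, trap 1 2 δ y * ν T y ≤ ∫ y in (1 : ℝ)..2, ν T y := by
    apply intervalIntegral.integral_mono_on (by norm_num)
      (hii _ ((trap_cont _ _ _).mul (hc T)) _ _) (hii _ (hc T) _ _)
    intro y _
    show trap 1 2 δ y * ν T y ≤ ν T y
    exact mul_le_of_le_one_left (h0 T y) (trap_le_one _ _ _ _)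
  have v4 : 1 - 2 * δ ≤ ∫ y in (1 : ℝ)..2, trap 1 2 δ y * 1 := by
    have w1 : ∫ y in (1 + δ)..(2 - δ), (1 : ℝ) ≤ ∫ y in (1 : ℝ)..2, trap 1 2 δ y * 1 := by
      have w2 : ∫ y in (1 + δ)..(2 - δ), (1 : ℝ) = ∫ y in (1 + δ)..(2 - δ), trap 1 2 δ y * 1 := by
        apply intervalIntegral.integral_congr
        intro y hy
        rw [uIcc_of_le (by linarith)] at hy
        simp only
        rw [trap_mid hδ hy.1 hy.2, one_mul]
      rw [w2]
      apply intervalIntegral.integral_mono_interval (by linarith) (by linarith) (by linarith)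
      · exact Eventually.of_forall fun y => mul_nonneg (trap_nonneg _ _ _ _) (by norm_num)
      · exact hii _ ((trap_cont _ _ _).mul continuous_const) _ _
    refine le_trans (le_of_eq ?_) w1
    rw [intervalIntegral.integral_const]
    simp only [smul_eq_mul, mul_one]
    ring
  rw [abs_le] at u1 u2
  have v5 : ρ * ∫ y in (1 - δ)..(2 + δ), trap (1 - δ) (2 + δ) δ y * 1 ≤ ρ * (1 + 2 * δ) :=
    mul_le_mul_of_nonneg_left v2 hρ
  have v6 : ρ * (1 - 2 * δ) ≤ ρ * ∫ y in (1 : ℝ)..2, trap 1 2 δ y * 1 :=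
    mul_le_mul_of_nonneg_left v4 hρ
  rw [Real.dist_eq, abs_lt]
  constructor
  · nlinarith [u2.1]
  · nlinarith [u1.2]
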